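import Mathlib

/-!
The Waiter-Client game on a hypergraph given by the list of its edges.
-/

namespace Pool.Agent.H911Z.WC

/-- `WaiterWins E U W`: in the Waiter-Client game on the hypergraph with edge list `E`, Waiter has
a winning strategy from the position in which `U` is the set of unclaimed vertices and `W` is the
set of vertices owned by Waiter.  If at most one vertex is unclaimed the game is over (a last vertex
goes to Client) and Waiter has won if she owns all vertices of some edge.  Otherwise she offers two
different unclaimed vertices `x`, `y`; Client claims one of them and Waiter gets the other one. -/
inductive WaiterWins {α : Type} [DecidableEq α] (E : List (List α)) :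
    Finset α → Finset α → Prop
  | done (U W : Finset α) : U.card ≤ 1 → (∃ e ∈ E, ∀ v ∈ e, v ∈ W) → WaiterWins E U W
  | step (U W : Finset α) (x y : α) : x ∈ U → y ∈ U → x ≠ y →
      WaiterWins E (U \ {x, y}) (insert x W) → WaiterWins E (U \ {x, y}) (insert y W) →
      WaiterWins E U W

/-- The decision problem WAITER-CLIENT with explicit edges: the input is the list of the edges, each
one a list of vertices (natural numbers); the vertex set is the union of the edges, all vertices
are unclaimed at the start, and the question is whether Waiter has a winning strategy. -/
def WaiterClient (E : List (List ℕ)) : Prop := WaiterWins E E.flatten.toFinset ∅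

end Pool.Agent.H911Z.WC
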