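import Mathlib
import Pool.Agent.H911Z.WC.Defs

namespace Pool.Agent.H911Z.WC

variable {α : Type} [DecidableEq α]

theorem win_of_edge (E : List (List α)) : ∀ (n : ℕ) (U W : Finset α), U.card ≤ n →
    (∃ e ∈ E, ∀ v ∈ e, v ∈ W) → WaiterWins E U W := by
  intro n
  induction n with
  | zero => intro U W h he; exact WaiterWins.done U W (by omega) he
  | succ n ih =>
    intro U W h he
    by_cases h1 : U.card ≤ 1
    · exact WaiterWins.done U W h1 he
    · obtain ⟨x, hx, y, hy, hxy⟩ := Finset.one_lt_card.mp (by omega : 1 < U.card)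
      have hc : (U \ {x, y}).card ≤ n := by
        have : U \ {x, y} ⊂ U := by
          refine Finset.ssubset_iff_subset_ne.mpr ⟨Finset.sdiff_subset, ?_⟩
          intro h2
          have : x ∈ U \ {x, y} := by rw [h2]; exact hx
          simp at this
        have := Finset.card_lt_card this
        omega
      obtain ⟨e, he1, he2⟩ := he
      exact WaiterWins.step U W x y hx hy hxy
        (ih _ _ hc ⟨e, he1, fun v hv => Finset.mem_insert_of_mem (he2 v hv)⟩)
        (ih _ _ hc ⟨e, he1, fun v hv => Finset.mem_insert_of_mem (he2 v hv)⟩)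

theorem win_edge {E : List (List α)} {U W : Finset α} (e : List α) (he : e ∈ E)
    (h : ∀ v ∈ e, v ∈ W) : WaiterWins E U W :=
  win_of_edge E U.card U W le_rfl ⟨e, he, h⟩

theorem image_sdiff_pair {β : Type} [DecidableEq β] {f : α → β} (hf : Function.Injective f)
    (U : Finset α) (x y : α) : (U \ {x, y}).image f = U.image f \ {f x, f y} := by
  rw [Finset.image_sdiff _ _ hf]
  simp

theorem win_map {β : Type} [DecidableEq β] {f : α → β} (hf : Function.Injective f)
    (E : List (List α)) (U W : Finset α) (h : WaiterWins E U W) :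
    WaiterWins (E.map (List.map f)) (U.image f) (W.image f) := by
  induction h with
  | done U W h1 h2 =>
    obtain ⟨e, he, h3⟩ := h2
    refine win_edge (e.map f) (List.mem_map_of_mem he) ?_
    intro v hv
    obtain ⟨u, hu, rfl⟩ := List.mem_map.mp hv
    exact Finset.mem_image_of_mem f (h3 u hu)
  | step U W x y hx hy hxy _ _ ih1 ih2 =>
    rw [image_sdiff_pair hf, Finset.image_insert] at ih1 ih2
    exact WaiterWins.step _ _ (f x) (f y) (Finset.mem_image_of_mem f hx)
      (Finset.mem_image_of_mem f hy) (fun h => hxy (hf h)) ih1 ih2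

theorem win_unmap {β : Type} [DecidableEq β] {f : α → β} (hf : Function.Injective f)
    (E : List (List α)) (U' W' : Finset β) (h : WaiterWins (E.map (List.map f)) U' W') :
    ∀ U W : Finset α, U' = U.image f → W' = W.image f → WaiterWins E U W := by
  induction h with
  | done U' W' h1 h2 =>
    intro U W _ hW
    obtain ⟨e', he', h3⟩ := h2
    obtain ⟨e, he, rfl⟩ := List.mem_map.mp he'
    refine win_edge e he ?_
    intro v hv
    have h4 := h3 (f v) (List.mem_map_of_mem hv)
    rw [hW] at h4
    obtain ⟨u, hu, h5⟩ := Finset.mem_image.mp h4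
    rw [← hf h5]
    exact hu
  | step U' W' x' y' hx hy hxy _ _ ih1 ih2 =>
    intro U W hU hW
    subst hU hW
    obtain ⟨x, hx1, rfl⟩ := Finset.mem_image.mp hx
    obtain ⟨y, hy1, rfl⟩ := Finset.mem_image.mp hy
    refine WaiterWins.step U W x y hx1 hy1 (fun h => hxy (by rw [h])) ?_ ?_
    · exact ih1 _ _ (image_sdiff_pair hf U x y).symm (Finset.image_insert f x W).symm
    · exact ih2 _ _ (image_sdiff_pair hf U x y).symm (Finset.image_insert f y W).symm

/-- The weight of a set of vertices in a position. -/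
def om (e U W : Finset α) : ℚ := if e ⊆ U ∪ W then (1 / 2) ^ (e ∩ U).card else 0

theorem om_nonneg (e U W : Finset α) : 0 ≤ om e U W := by
  unfold om
  split_ifs
  · positivity
  · exact le_rfl

theorem om_ne_zero {e U W : Finset α} : om e U W ≠ 0 ↔ e ⊆ U ∪ W := by
  unfold om
  split_ifs with h
  · simp [h]
  · simp [h]

theorem disj_move {U W : Finset α} (hd : Disjoint U W) (x y : α) :
    Disjoint (U \ {x, y}) (insert x W) := by
  rw [Finset.disjoint_left] at hd ⊢
  intro v hv hv'
  simp only [Finset.mem_sdiff, Finset.mem_insert, Finset.mem_singleton, not_or] at hv hv'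
  rcases hv' with h | h
  · exact hv.2.1 h
  · exact hd hv.1 h

theorem mem_move {U W : Finset α} (hd : Disjoint U W) {x y : α} (hx : x ∈ U) (hy : y ∈ U)
    (hxy : x ≠ y) (v : α) : v ∈ (U \ {x, y}) ∪ insert x W ↔ v ∈ U ∪ W ∧ v ≠ y := by
  rw [Finset.disjoint_left] at hd
  simp only [Finset.mem_union, Finset.mem_sdiff, Finset.mem_insert, Finset.mem_singleton, not_or]
  constructor
  · rintro (⟨h1, _, h3⟩ | h | h)
    · exact ⟨Or.inl h1, h3⟩
    · subst h; exact ⟨Or.inl hx, hxy⟩
    · exact ⟨Or.inr h, fun h' => hd hy (h' ▸ h)⟩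
  · rintro ⟨h1 | h1, h2⟩
    · by_cases h3 : v = x
      · exact Or.inr (Or.inl h3)
      · exact Or.inl ⟨h1, h3, h2⟩
    · exact Or.inr (Or.inr h1)

/-- Waiter gets `x`, Client gets `y`. -/
theorem om_move (e : Finset α) {U W : Finset α} (hd : Disjoint U W) {x y : α} (hx : x ∈ U)
    (hy : y ∈ U) (hxy : x ≠ y) :
    om e (U \ {x, y}) (insert x W) =
      if y ∈ e then 0 else if x ∈ e then 2 * om e U W else om e U W := by
  have hsub : e ⊆ (U \ {x, y}) ∪ insert x W ↔ e ⊆ U ∪ W ∧ y ∉ e := by
    constructor
    · intro h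
      refine ⟨fun v hv => ((mem_move hd hx hy hxy v).mp (h hv)).1, fun hye => ?_⟩
      exact ((mem_move hd hx hy hxy y).mp (h hye)).2 rfl
    · rintro ⟨h1, h2⟩ v hv
      exact (mem_move hd hx hy hxy v).mpr ⟨h1 hv, fun h => h2 (h ▸ hv)⟩
  unfold om
  by_cases hye : y ∈ e
  · rw [if_pos hye, if_neg]
    rw [hsub]
    exact fun h => h.2 hye
  · rw [if_neg hye]
    by_cases he : e ⊆ U ∪ W
    · rw [if_pos (hsub.mpr ⟨he, hye⟩), if_pos he]
      by_cases hxe : x ∈ e
      · rw [if_pos hxe]
        have h1 : e ∩ U = insert x (e ∩ (U \ {x, y})) := by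
          ext v
          simp only [Finset.mem_inter, Finset.mem_insert, Finset.mem_sdiff, Finset.mem_singleton,
            not_or]
          constructor
          · rintro ⟨h1, h2⟩
            by_cases h3 : v = x
            · exact Or.inl h3
            · exact Or.inr ⟨h1, h2, h3, fun h => hye (h ▸ h1)⟩
          · rintro (h | ⟨h1, h2, _⟩)
            · subst h; exact ⟨hxe, hx⟩
            · exact ⟨h1, h2⟩
        rw [h1, Finset.card_insert_of_notMem (by simp), pow_succ]
        ring
      · rw [if_neg hxe]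
        congr 2
        ext v
        simp only [Finset.mem_inter, Finset.mem_sdiff, Finset.mem_insert, Finset.mem_singleton,
          not_or]
        constructor
        · rintro ⟨h1, h2, _⟩; exact ⟨h1, h2⟩
        · rintro ⟨h1, h2⟩
          exact ⟨h1, h2, fun h => hxe (h ▸ h1), fun h => hye (h ▸ h1)⟩
    · rw [if_neg (fun h => he (hsub.mp h).1), if_neg he]
      simp

theorem om_of_subset {e U W : Finset α} (hd : Disjoint U W) (h : e ⊆ W) : om e U W = 1 := by
  unfold om
  rw [if_pos (h.trans Finset.subset_union_right)]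
  have : e ∩ U = ∅ := by
    rw [← Finset.disjoint_iff_inter_eq_empty]
    exact (Finset.disjoint_of_subset_right h hd).symm
  rw [this]
  simp

/-- The potential bound: if Waiter wins, every dominating family has weight at least one. -/
theorem potential {ι : Type} (s : Finset ι) (f : ι → Finset α) {E : List (List α)}
    {U W : Finset α} (h : WaiterWins E U W) : Disjoint U W →
    (∀ e ∈ E, (∀ v ∈ e, v ∈ U ∪ W) → ∃ t ∈ s, ∀ v ∈ f t, v ∈ e) →
    1 ≤ ∑ t ∈ s, om (f t) U W := by
  induction h with
  | done U W _ h2 =>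
    intro hd hdom
    obtain ⟨e, he, h3⟩ := h2
    obtain ⟨t, ht, h4⟩ := hdom e he (fun v hv => Finset.mem_union_right _ (h3 v hv))
    rw [← om_of_subset (e := f t) hd (fun v hv => h3 v (h4 v hv))]
    exact Finset.single_le_sum (f := fun t => om (f t) U W) (fun _ _ => om_nonneg _ _ _) ht
  | step U W x y hx hy hxy _ _ ih1 ih2 =>
    intro hd hdom
    have h1 := ih1 (disj_move hd x y) (fun e he hv =>
      hdom e he (fun v hve => ((mem_move hd hx hy hxy v).mp (hv v hve)).1))
    rw [Finset.pair_comm x y] at ih2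
    have h2 := ih2 (disj_move hd y x) (fun e he hv =>
      hdom e he (fun v hve => ((mem_move hd hy hx hxy.symm v).mp (hv v hve)).1))
    have h3 : ∑ t ∈ s, om (f t) (U \ {x, y}) (insert x W) +
        ∑ t ∈ s, om (f t) (U \ {y, x}) (insert y W) ≤ 2 * ∑ t ∈ s, om (f t) U W := by
      rw [← Finset.sum_add_distrib, Finset.mul_sum]
      apply Finset.sum_le_sum
      intro t _
      rw [om_move _ hd hx hy hxy, om_move _ hd hy hx hxy.symm]
      have := om_nonneg (f t) U W
      split_ifs <;> linarith
    linarith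

/-- The chain condition on a sequence of weights. -/
structure Chain (N : ℕ) (w : ℕ → ℚ) : Prop where
  nonneg : ∀ t, 0 ≤ w t
  total : ∑ t ∈ Finset.range (N + 1), w t ≤ 1
  last : w N ≠ 0
  tail : ∀ k < N, w k ≠ 0 → w k = ∑ t ∈ Finset.range (N + 1), if k < t then w t else 0

theorem Chain.aux {N : ℕ} {w : ℕ → ℚ} (hc : Chain N w) (P Q : ℕ → Prop) [DecidablePred P]
    [DecidablePred Q] (hPQ : ∀ t ≤ N, w t ≠ 0 → ¬ (P t ∧ Q t))
    (hab : ∑ t ∈ Finset.range (N + 1), (if P t then w t else 0) =
      ∑ t ∈ Finset.range (N + 1), (if Q t then w t else 0))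
    (k : ℕ) (hk : k ≤ N) (hwk : w k ≠ 0) (hPk : P k)
    (hmin : ∀ t < k, w t ≠ 0 → ¬ Q t) :
    k < N ∧ ∀ t ≤ N, w t ≠ 0 → ((P t ↔ t = k) ∧ (Q t ↔ k < t)) := by
  have hA : ∀ t ∈ Finset.range (N + 1),
      0 ≤ (if P t then w t else 0) - (if t = k then w t else 0) := by
    intro t _
    have := hc.nonneg t
    by_cases h : t = k
    · subst h; simp [hPk]
    · rw [if_neg h]; split_ifs <;> linarith
  have hB : ∀ t ∈ Finset.range (N + 1),
      0 ≤ (if k < t then w t else 0) - (if Q t then w t else 0) := by
    intro t ht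
    have h0 := hc.nonneg t
    have htN : t ≤ N := by simpa [Nat.lt_succ_iff] using ht
    by_cases hw : w t = 0
    · simp [hw]
    · by_cases hQ : Q t
      · have : k < t := by
          by_contra hlt
          rcases Nat.lt_or_ge t k with h1 | h1
          · exact hmin t h1 hw hQ
          · have : t = k := by omega
            subst this
            exact hPQ t htN hw ⟨hPk, hQ⟩
        simp [this, hQ]
      · rw [if_neg hQ]; split_ifs <;> linarith
  have hdelta : ∑ t ∈ Finset.range (N + 1), (if t = k then w t else 0) = w k := by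
    rw [Finset.sum_ite_eq']
    simp [Nat.lt_succ_iff, hk]
  have hA' := Finset.sum_nonneg hA
  have hB' := Finset.sum_nonneg hB
  have hpos : 0 < w k := lt_of_le_of_ne (hc.nonneg k) (Ne.symm hwk)
  have hkN : k < N := by
    by_contra hcon
    have hz : ∑ t ∈ Finset.range (N + 1), (if k < t then w t else 0) = 0 := by
      apply Finset.sum_eq_zero
      intro t ht
      rw [if_neg]
      have := Finset.mem_range.mp ht
      omega
    rw [Finset.sum_sub_distrib] at hA' hB'
    linarith
  refine ⟨hkN, ?_⟩
  have htail := hc.tail k hkN hwk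
  have hA0 : ∑ t ∈ Finset.range (N + 1),
      ((if P t then w t else 0) - (if t = k then w t else 0)) = 0 := by
    rw [Finset.sum_sub_distrib] at hA' hB' ⊢
    linarith
  have hB0 : ∑ t ∈ Finset.range (N + 1),
      ((if k < t then w t else 0) - (if Q t then w t else 0)) = 0 := by
    rw [Finset.sum_sub_distrib] at hA' hB' ⊢
    linarith
  rw [Finset.sum_eq_zero_iff_of_nonneg hA] at hA0
  rw [Finset.sum_eq_zero_iff_of_nonneg hB] at hB0
  intro t ht hw
  have h1 := hA0 t (Finset.mem_range.mpr (by omega))
  have h2 := hB0 t (Finset.mem_range.mpr (by omega))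
  constructor
  · constructor
    · intro hP
      by_contra hne
      rw [if_pos hP, if_neg hne] at h1
      exact hw (by linarith)
    · rintro rfl; exact hPk
  · constructor
    · intro hQ
      by_contra hne
      rw [if_pos hQ, if_neg hne] at h2
      exact hw (by linarith)
    · intro hlt
      by_contra hQ
      rw [if_pos hlt, if_neg hQ] at h2
      exact hw (by linarith)

theorem Chain.cases {N : ℕ} {w : ℕ → ℚ} (hc : Chain N w) (P Q : ℕ → Prop) [DecidablePred P]
    [DecidablePred Q]
    (h1 : 1 ≤ ∑ t ∈ Finset.range (N + 1), if Q t then 0 else if P t then 2 * w t else w t)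
    (h2 : 1 ≤ ∑ t ∈ Finset.range (N + 1), if P t then 0 else if Q t then 2 * w t else w t) :
    (∀ t ≤ N, w t ≠ 0 → ¬ P t ∧ ¬ Q t) ∨
    (∃ k < N, w k ≠ 0 ∧ ∀ t ≤ N, w t ≠ 0 → ((P t ↔ t = k) ∧ (Q t ↔ k < t))) ∨
    (∃ k < N, w k ≠ 0 ∧ ∀ t ≤ N, w t ≠ 0 → ((Q t ↔ t = k) ∧ (P t ↔ k < t))) := by
  set a := ∑ t ∈ Finset.range (N + 1), (if P t then w t else 0) with ha
  set b := ∑ t ∈ Finset.range (N + 1), (if Q t then w t else 0) with hb
  set c := ∑ t ∈ Finset.range (N + 1), (if P t ∧ Q t then w t else 0) with hcc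
  have e1 : ∑ t ∈ Finset.range (N + 1), (if Q t then 0 else if P t then 2 * w t else w t) =
      ∑ t ∈ Finset.range (N + 1), w t + a - b - c := by
    rw [ha, hb, hcc, ← Finset.sum_add_distrib, ← Finset.sum_sub_distrib, ← Finset.sum_sub_distrib]
    apply Finset.sum_congr rfl
    intro t _
    by_cases hP : P t <;> by_cases hQ : Q t <;> simp [hP, hQ]
    ring
  have e2 : ∑ t ∈ Finset.range (N + 1), (if P t then 0 else if Q t then 2 * w t else w t) =
      ∑ t ∈ Finset.range (N + 1), w t + b - a - c := by
    rw [ha, hb, hcc, ← Finset.sum_add_distrib, ← Finset.sum_sub_distrib, ← Finset.sum_sub_distrib]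
    apply Finset.sum_congr rfl
    intro t _
    by_cases hP : P t <;> by_cases hQ : Q t <;> simp [hP, hQ]
    ring
  have hcn : ∀ t ∈ Finset.range (N + 1), 0 ≤ (if P t ∧ Q t then w t else 0) := by
    intro t _
    split_ifs
    · exact hc.nonneg t
    · exact le_rfl
  have hc0 : 0 ≤ c := Finset.sum_nonneg hcn
  have htot := hc.total
  have hab : a = b := by linarith
  have hcz : c = 0 := by linarith
  rw [hcc, Finset.sum_eq_zero_iff_of_nonneg hcn] at hcz
  have hPQ : ∀ t ≤ N, w t ≠ 0 → ¬ (P t ∧ Q t) := by
    intro t ht hw hpq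
    have := hcz t (Finset.mem_range.mpr (by omega))
    rw [if_pos hpq] at this
    exact hw this
  by_cases hex : ∃ t, t ≤ N ∧ w t ≠ 0 ∧ (P t ∨ Q t)
  · right
    classical
    obtain ⟨hk, hwk, hor⟩ := Nat.find_spec hex
    have hmin : ∀ t < Nat.find hex, w t ≠ 0 → ¬ P t ∧ ¬ Q t := by
      intro t ht hw
      have := Nat.find_min hex ht
      constructor
      · exact fun h => this ⟨by omega, hw, Or.inl h⟩
      · exact fun h => this ⟨by omega, hw, Or.inr h⟩
    rcases hor with h | h
    · left
      obtain ⟨h3, h4⟩ := hc.aux P Q hPQ hab _ hk hwk h (fun t ht hw => (hmin t ht hw).2)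
      exact ⟨_, h3, hwk, h4⟩
    · right
      obtain ⟨h3, h4⟩ := hc.aux Q P (fun t ht hw h' => hPQ t ht hw h'.symm) hab.symm _ hk hwk h
        (fun t ht hw => (hmin t ht hw).1)
      exact ⟨_, h3, hwk, h4⟩
  · left
    intro t ht hw
    exact ⟨fun h => hex ⟨t, ht, hw, Or.inl h⟩, fun h => hex ⟨t, ht, hw, Or.inr h⟩⟩

theorem Chain.congr {N : ℕ} {w w' : ℕ → ℚ} (hc : Chain N w) (h0 : ∀ t, 0 ≤ w' t)
    (h : ∀ t ≤ N, w' t = w t) : Chain N w' := by
  refine ⟨h0, ?_, ?_, ?_⟩
  · rw [Finset.sum_congr rfl (fun t ht => h t (by have := Finset.mem_range.mp ht; omega))]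
    exact hc.total
  · rw [h N le_rfl]; exact hc.last
  · intro k hk hw
    rw [h k hk.le] at hw ⊢
    rw [hc.tail k hk hw]
    apply Finset.sum_congr rfl
    intro t ht
    rw [h t (by have := Finset.mem_range.mp ht; omega)]

theorem Chain.kill {N : ℕ} {w : ℕ → ℚ} (hc : Chain N w) (k : ℕ) (hk : k < N) (hw : w k ≠ 0) :
    Chain N (fun t => if t = k then 0 else if k < t then 2 * w t else w t) := by
  have htail := hc.tail k hk hw
  have hdelta : ∑ t ∈ Finset.range (N + 1), (if t = k then w t else 0) = w k := by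
    rw [Finset.sum_ite_eq']
    simp [Nat.lt_succ_iff, hk.le]
  refine ⟨?_, ?_, ?_, ?_⟩
  · intro t
    have := hc.nonneg t
    split_ifs <;> linarith
  · have e : ∑ t ∈ Finset.range (N + 1), (if t = k then 0 else if k < t then 2 * w t else w t) =
        ∑ t ∈ Finset.range (N + 1), w t - ∑ t ∈ Finset.range (N + 1), (if t = k then w t else 0)
          + ∑ t ∈ Finset.range (N + 1), (if k < t then w t else 0) := by
      rw [← Finset.sum_sub_distrib, ← Finset.sum_add_distrib]
      apply Finset.sum_congr rfl
      intro t _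
      by_cases h1 : t = k
      · subst h1; simp
      · by_cases h2 : k < t <;> simp [h1, h2]
        ring
    have := hc.total
    rw [e]
    linarith
  · have := hc.last
    simp only [hk.ne', if_false, hk, if_true]
    exact mul_ne_zero two_ne_zero this
  · intro j hj hwj
    have hjk : j ≠ k := by
      intro h; simp [h] at hwj
    rcases Nat.lt_or_gt_of_ne hjk with h | h
    · have hnk : ¬ k < j := by omega
      simp only [hjk, if_false, hnk] at hwj ⊢
      have e : ∑ t ∈ Finset.range (N + 1),
          (if j < t then (if t = k then 0 else if k < t then 2 * w t else w t) else 0) =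
          ∑ t ∈ Finset.range (N + 1), (if j < t then w t else 0) -
            ∑ t ∈ Finset.range (N + 1), (if t = k then w t else 0)
            + ∑ t ∈ Finset.range (N + 1), (if k < t then w t else 0) := by
        rw [← Finset.sum_sub_distrib, ← Finset.sum_add_distrib]
        apply Finset.sum_congr rfl
        intro t _
        by_cases h1 : t = k
        · subst h1; simp [h]
        · by_cases h2 : k < t
          · have h3 : j < t := by omega
            simp [h1, h2, h3]
            ring
          · simp [h1, h2]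
      rw [e, ← hc.tail j hj hwj]
      linarith
    · simp only [hjk, if_false, h, if_true] at hwj ⊢
      have hwj' : w j ≠ 0 := fun h0 => hwj (by rw [h0]; simp)
      rw [hc.tail j hj hwj', Finset.mul_sum]
      apply Finset.sum_congr rfl
      intro t _
      by_cases h2 : j < t
      · have h3 : k < t := by omega
        simp [h2, h3, h3.ne']
      · simp [h2]

theorem chain_init (N : ℕ) :
    Chain N (fun t => if t < N then (1 / 2 : ℚ) ^ (t + 1) else (1 / 2) ^ N) := by
  have key : ∀ d k M : ℕ, M = k + 1 + d → ∑ t ∈ Finset.range M,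
      (if k < t then (1 / 2 : ℚ) ^ (t + 1) else 0) = (1 / 2) ^ (k + 1) - (1 / 2) ^ M := by
    intro d k
    induction d with
    | zero =>
      intro M hM
      subst hM
      rw [Finset.sum_eq_zero]
      · simp
      · intro t ht
        rw [if_neg]
        have := Finset.mem_range.mp ht
        omega
    | succ d ih =>
      intro M hM
      subst hM
      rw [← add_assoc, Finset.sum_range_succ, ih _ rfl, if_pos (by omega), pow_succ _ (k + 1 + d)]
      ring
  have key2 : ∀ M : ℕ, ∑ t ∈ Finset.range M, (1 / 2 : ℚ) ^ (t + 1) = 1 - (1 / 2) ^ M := by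
    intro M
    induction M with
    | zero => simp
    | succ M ih => rw [Finset.sum_range_succ, ih, pow_succ]; ring
  refine ⟨?_, ?_, ?_, ?_⟩
  · intro t
    split_ifs <;> positivity
  · rw [Finset.sum_range_succ, if_neg (lt_irrefl N),
      Finset.sum_congr rfl (fun t ht => if_pos (Finset.mem_range.mp ht)), key2]
    linarith
  · simp
  · intro k hk _
    rw [if_pos hk, Finset.sum_range_succ, if_pos hk, if_neg (lt_irrefl N)]
    have e : ∑ t ∈ Finset.range N,
        (if k < t then (if t < N then (1 / 2 : ℚ) ^ (t + 1) else (1 / 2) ^ N) else 0) =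
        ∑ t ∈ Finset.range N, (if k < t then (1 / 2 : ℚ) ^ (t + 1) else 0) := by
      apply Finset.sum_congr rfl
      intro t ht
      rw [if_pos (Finset.mem_range.mp ht)]
    rw [e, key (N - (k + 1)) k N (by omega)]
    ring

end Pool.Agent.H911Z.WC
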