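import Mathlib
import Pool.Agent.H911Z.WC.Game
import Pool.Agent.H671R2.BSat

namespace Pool.Agent.H911Z.WC

open Pool.Agent.NPC Pool.Agent.NPC.R671

inductive Vx : Type
  | x (k : ℕ) | y (k : ℕ) | c (j : ℕ) | g (j : ℕ) | a (i : ℕ) | z (j : ℕ)
  | lit (b : Bool) (i : ℕ) | d
  deriving DecidableEq

def XE (k : ℕ) : List Vx := (List.range k).map Vx.y ++ [Vx.x k]
def VE (m i : ℕ) : List Vx :=
  (List.range m).map Vx.c ++ ((List.range i).map Vx.a ++ [Vx.lit true i, Vx.lit false i])
def base (m n j : ℕ) : List Vx :=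
  (List.range (m + 1)).map Vx.g ++ ((List.range n).map Vx.a ++ (List.range j).map Vx.z)
def KE (m n j : ℕ) : List Vx := base m n j ++ [Vx.c j]

def edges (φ : List (List (Bool × ℕ))) : List (List Vx) :=
  (List.range (φ.length + 1)).map XE ++ ((List.range φ.flatten.length).map (VE φ.length) ++
    (φ.zipIdx.flatMap (fun p => (KE φ.length φ.flatten.length p.2 ++ [Vx.d]) ::
      (p.1.filter (fun l => decide (l.2 < φ.flatten.length))).map
        (fun l => KE φ.length φ.flatten.length p.2 ++ [Vx.lit l.1 l.2])) ++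
      [base φ.length φ.flatten.length φ.length]))

theorem mem_XE (k : ℕ) (v : Vx) : v ∈ XE k ↔ (∃ t < k, v = Vx.y t) ∨ v = Vx.x k := by
  simp [XE, eq_comm]

theorem mem_VE (m i : ℕ) (v : Vx) : v ∈ VE m i ↔
    (∃ t < m, v = Vx.c t) ∨ (∃ t < i, v = Vx.a t) ∨ v = Vx.lit true i ∨ v = Vx.lit false i := by
  simp [VE, eq_comm]

theorem mem_base (m n j : ℕ) (v : Vx) : v ∈ base m n j ↔
    (∃ t < m + 1, v = Vx.g t) ∨ (∃ t < n, v = Vx.a t) ∨ (∃ t < j, v = Vx.z t) := by
  simp only [base, List.mem_append, List.mem_map, List.mem_range, eq_comm]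

theorem mem_KE (m n j : ℕ) (v : Vx) : v ∈ KE m n j ↔ v ∈ base m n j ∨ v = Vx.c j := by
  simp [KE]

theorem mem_edges (φ : List (List (Bool × ℕ))) (e : List Vx) : e ∈ edges φ ↔
    (∃ k < φ.length + 1, e = XE k) ∨ (∃ i < φ.flatten.length, e = VE φ.length i) ∨
    (∃ j < φ.length, e = KE φ.length φ.flatten.length j ++ [Vx.d]) ∨
    (∃ j, ∃ h : j < φ.length, ∃ l ∈ φ[j], l.2 < φ.flatten.length ∧
      e = KE φ.length φ.flatten.length j ++ [Vx.lit l.1 l.2]) ∨
    e = base φ.length φ.flatten.length φ.length := by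
  unfold edges
  simp only [List.mem_append, List.mem_map, List.mem_range, List.mem_flatMap, List.mem_cons,
    List.mem_filter, decide_eq_true_eq, List.not_mem_nil, or_false]
  constructor
  · rintro (⟨k, hk, rfl⟩ | ⟨i, hi, rfl⟩ | ⟨⟨cl, j⟩, hp, h⟩ | h)
    · exact Or.inl ⟨k, hk, rfl⟩
    · exact Or.inr (Or.inl ⟨i, hi, rfl⟩)
    · rw [List.mem_zipIdx_iff_getElem?] at hp
      obtain ⟨hj, hcl⟩ := List.getElem?_eq_some_iff.mp hp
      simp only at hj hcl h
      rcases h with h | ⟨l, ⟨hl1, hl2⟩, h⟩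
      · exact Or.inr (Or.inr (Or.inl ⟨j, hj, h⟩))
      · exact Or.inr (Or.inr (Or.inr (Or.inl ⟨j, hj, l, hcl ▸ hl1, hl2, h.symm⟩)))
    · exact Or.inr (Or.inr (Or.inr (Or.inr h)))
  · rintro (⟨k, hk, rfl⟩ | ⟨i, hi, rfl⟩ | ⟨j, hj, h⟩ | ⟨j, hj, l, hl1, hl2, h⟩ | h)
    · exact Or.inl ⟨k, hk, rfl⟩
    · exact Or.inr (Or.inl ⟨i, hi, rfl⟩)
    · refine Or.inr (Or.inr (Or.inl ⟨(φ[j], j), ?_, Or.inl h⟩))
      rw [List.mem_zipIdx_iff_getElem?]
      exact List.getElem?_eq_getElem hj
    · refine Or.inr (Or.inr (Or.inl ⟨(φ[j], j), ?_, Or.inr ⟨l, ⟨hl1, hl2⟩, h.symm⟩⟩))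
      rw [List.mem_zipIdx_iff_getElem?]
      exact List.getElem?_eq_getElem hj
    · exact Or.inr (Or.inr (Or.inr h))

/-! ### Waiter wins on satisfiable formulas -/

section Yes

variable (φ : List (List (Bool × ℕ)))

theorem lemA : ∀ (r s : ℕ) (U W : Finset Vx), s + r ≤ φ.length →
    (∀ i, s ≤ i → i < s + r → Vx.x i ∈ U ∧ Vx.y i ∈ U) → (∀ i < s, Vx.y i ∈ W) →
    Vx.x (s + r) ∈ W → WaiterWins (edges φ) U W := by
  intro r
  induction r with
  | zero =>
    intro s U W hs _ hy hx
    refine win_edge (XE s) ((mem_edges φ _).mpr (Or.inl ⟨s, by omega, rfl⟩)) ?_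
    intro v hv
    rcases (mem_XE s v).mp hv with ⟨t, ht, rfl⟩ | rfl
    · exact hy t ht
    · exact hx
  | succ r ih =>
    intro s U W hs hU hy hx
    refine WaiterWins.step U W (Vx.x s) (Vx.y s) (hU s le_rfl (by omega)).1
      (hU s le_rfl (by omega)).2 (by simp) ?_ ?_
    · refine win_edge (XE s) ((mem_edges φ _).mpr (Or.inl ⟨s, by omega, rfl⟩)) ?_
      intro v hv
      rcases (mem_XE s v).mp hv with ⟨t, ht, rfl⟩ | rfl
      · exact Finset.mem_insert_of_mem (hy t ht)
      · exact Finset.mem_insert_self _ _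
    · refine ih (s + 1) _ _ (by omega) ?_ ?_ ?_
      · intro i h1 h2
        have h3 := hU i (by omega) (by omega)
        have h4 : i ≠ s := by omega
        simp [h3.1, h3.2, h4]
      · intro i hi
        rcases Nat.lt_succ_iff_lt_or_eq.mp hi with h | h
        · exact Finset.mem_insert_of_mem (hy i h)
        · rw [h]; exact Finset.mem_insert_self _ _
      · rw [show s + 1 + r = s + (r + 1) by omega]
        exact Finset.mem_insert_of_mem hx

theorem lemB (γ : ℕ → Vx) (hγ : ∀ s t, s < φ.length + 1 → t < φ.length + 1 → γ s = γ t → s = t)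
    (hγx : ∀ s i, γ s ≠ Vx.x i) (hγy : ∀ s i, γ s ≠ Vx.y i) :
    ∀ (r : ℕ) (U W : Finset Vx), r ≤ φ.length + 1 →
    (∀ i < r, Vx.x i ∈ U ∧ γ i ∈ U) → (∀ i, i + 1 < r → Vx.y i ∈ U) →
    (∀ U' W' : Finset Vx, (∀ v ∈ U, (∀ i, v ≠ Vx.x i) → (∀ i < r, v ≠ γ i) → v ∈ U') →
      (∀ v ∈ W, v ∈ W') → (∀ i < r, γ i ∈ W') → WaiterWins (edges φ) U' W') →
    WaiterWins (edges φ) U W := by
  intro r
  induction r with
  | zero =>
    intro U W _ _ _ h
    exact h U W (fun v hv _ _ => hv) (fun v hv => hv) (fun i hi => absurd hi (by omega))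
  | succ r ih =>
    intro U W hr hU hy h
    refine WaiterWins.step U W (Vx.x r) (γ r) (hU r (by omega)).1 (hU r (by omega)).2
      (hγx r r).symm ?_ ?_
    · refine lemA φ r 0 _ _ (by omega) ?_ (fun i hi => absurd hi (by omega)) ?_
      · intro i _ h2
        have h3 := hU i (by omega)
        have h4 : i ≠ r := by omega
        have h5 := hy i (by omega)
        simp [h3.1, h4, h5, (hγx r i).symm, (hγy r i).symm]
      · simp
    · refine ih _ _ (by omega) ?_ ?_ ?_
      · intro i hi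
        have h3 := hU i (by omega)
        have h4 : i ≠ r := by omega
        have h5 : γ i ≠ γ r := fun h => h4 (hγ i r (by omega) (by omega) h)
        simp [h3.1, h3.2, h4, h5, (hγx r i).symm, hγx i r]
      · intro i hi
        have h5 := hy i (by omega)
        simp [h5, (hγy r i).symm]
      · intro U' W' h1 h2 h3
        refine h U' W' ?_ (fun v hv => h2 v (Finset.mem_insert_of_mem hv)) ?_
        · intro v hv hv1 hv2
          refine h1 v ?_ hv1 (fun i hi => hv2 i (by omega))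
          simp [hv, hv1 r, hv2 r (by omega)]
        · intro i hi
          rcases Nat.lt_succ_iff_lt_or_eq.mp hi with h' | h'
          · exact h3 i h'
          · rw [h']; exact h2 _ (Finset.mem_insert_self _ _)

variable (σ : ℕ → Bool) (hσ : ∀ cl ∈ φ, ∃ l ∈ cl, l.2 < φ.flatten.length ∧ σ l.2 = l.1)
include hσ

theorem lemC : ∀ (r j : ℕ) (U W : Finset Vx), j + r = φ.length →
    (∀ t, j ≤ t → t < φ.length → Vx.c t ∈ U ∧ Vx.z t ∈ U) → (0 < φ.length → Vx.d ∈ U) →
    (∀ i < φ.flatten.length, Vx.lit (σ i) i ∈ U) →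
    (∀ v ∈ base φ.length φ.flatten.length j, v ∈ W) → WaiterWins (edges φ) U W := by
  intro r
  induction r with
  | zero =>
    intro j U W hj _ _ _ hW
    have : j = φ.length := by omega
    subst this
    exact win_edge _ ((mem_edges φ _).mpr (Or.inr (Or.inr (Or.inr (Or.inr rfl))))) hW
  | succ r ih =>
    intro j U W hj hU hd hl hW
    have hjm : j < φ.length := by omega
    refine WaiterWins.step U W (Vx.c j) (Vx.z j) (hU j le_rfl hjm).1 (hU j le_rfl hjm).2
      (by simp) ?_ ?_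
    · obtain ⟨l, hl1, hl2, hl3⟩ := hσ φ[j] (List.getElem_mem hjm)
      have hK : ∀ v ∈ KE φ.length φ.flatten.length j, v ∈ insert (Vx.c j) W := by
        intro v hv
        rcases (mem_KE _ _ _ v).mp hv with h | h
        · exact Finset.mem_insert_of_mem (hW v h)
        · rw [h]; exact Finset.mem_insert_self _ _
      refine WaiterWins.step _ _ Vx.d (Vx.lit l.1 l.2) (by simp [hd (by omega)])
        (by simp [← hl3, hl _ hl2]) (by simp) ?_ ?_
      · refine win_edge _ ((mem_edges φ _).mpr (Or.inr (Or.inr (Or.inl ⟨j, hjm, rfl⟩)))) ?_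
        intro v hv
        rcases List.mem_append.mp hv with h | h
        · exact Finset.mem_insert_of_mem (hK v h)
        · rw [List.mem_singleton.mp h]; exact Finset.mem_insert_self _ _
      · refine win_edge _ ((mem_edges φ _).mpr
          (Or.inr (Or.inr (Or.inr (Or.inl ⟨j, hjm, l, hl1, hl2, rfl⟩))))) ?_
        intro v hv
        rcases List.mem_append.mp hv with h | h
        · exact Finset.mem_insert_of_mem (hK v h)
        · rw [List.mem_singleton.mp h]; exact Finset.mem_insert_self _ _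
    · refine ih (j + 1) _ _ (by omega) ?_ ?_ ?_ ?_
      · intro t h1 h2
        have h3 := hU t (by omega) h2
        have h4 : t ≠ j := by omega
        simp [h3.1, h3.2, h4]
      · intro h; simp [hd h]
      · intro i hi; simp [hl i hi]
      · intro v hv
        rw [mem_base] at hv
        rcases hv with h | h | ⟨t, ht, rfl⟩
        · exact Finset.mem_insert_of_mem (hW v ((mem_base _ _ _ v).mpr (Or.inl h)))
        · exact Finset.mem_insert_of_mem (hW v ((mem_base _ _ _ v).mpr (Or.inr (Or.inl h))))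
        · rcases Nat.lt_succ_iff_lt_or_eq.mp ht with h' | h'
          · exact Finset.mem_insert_of_mem
              (hW _ ((mem_base _ _ _ _).mpr (Or.inr (Or.inr ⟨t, h', rfl⟩))))
          · rw [h']; exact Finset.mem_insert_self _ _

theorem lemV : ∀ (r i : ℕ) (U W : Finset Vx), i + r = φ.flatten.length →
    (∀ t < φ.length + 1, Vx.x t ∈ U ∧ Vx.g t ∈ U) →
    (∀ t < φ.length, Vx.y t ∈ U ∧ Vx.c t ∈ U ∧ Vx.z t ∈ U) → (0 < φ.length → Vx.d ∈ U) →
    (∀ t < φ.flatten.length, Vx.lit (σ t) t ∈ U) →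
    (∀ t, i ≤ t → t < φ.flatten.length → Vx.lit (!σ t) t ∈ U ∧ Vx.a t ∈ U) →
    (∀ t < i, Vx.a t ∈ W) → WaiterWins (edges φ) U W := by
  intro r
  induction r with
  | zero =>
    intro i U W hi h1 h2 hd hl _ hW
    refine lemB φ Vx.g (fun s t _ _ h => by simpa using h) (by simp) (by simp) (φ.length + 1) U W
      le_rfl h1 (fun t ht => (h2 t (by omega)).1) ?_
    intro U' W' k1 k2 k3
    refine lemC φ σ hσ φ.length 0 U' W' (by omega) ?_ ?_ ?_ ?_
    · intro t _ ht
      exact ⟨k1 _ (h2 t ht).2.1 (by simp) (by simp), k1 _ (h2 t ht).2.2 (by simp) (by simp)⟩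
    · intro h; exact k1 _ (hd h) (by simp) (by simp)
    · intro t ht; exact k1 _ (hl t ht) (by simp) (by simp)
    · intro v hv
      rw [mem_base] at hv
      rcases hv with ⟨t, ht, rfl⟩ | ⟨t, ht, rfl⟩ | ⟨t, ht, rfl⟩
      · exact k3 t ht
      · exact k2 _ (hW t (by omega))
      · omega
  | succ r ih =>
    intro i U W hi h1 h2 hd hl h3 hW
    have hin : i < φ.flatten.length := by omega
    refine WaiterWins.step U W (Vx.lit (!σ i) i) (Vx.a i) (h3 i le_rfl hin).1 (h3 i le_rfl hin).2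
      (by simp) ?_ ?_
    · refine lemB φ (fun t => if t < φ.length then Vx.c t else Vx.lit (σ i) i) ?_ ?_ ?_
        (φ.length + 1) _ _ le_rfl ?_ ?_ ?_
      · intro s t hs ht h
        by_cases a1 : s < φ.length <;> by_cases a2 : t < φ.length <;> simp [a1, a2] at h <;> omega
      · intro s t; split_ifs <;> simp
      · intro s t; split_ifs <;> simp
      · intro t ht
        refine ⟨by simp [(h1 t ht).1], ?_⟩
        split_ifs with h
        · simp [(h2 t h).2.1]
        · simp [hl i hin]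
      · intro t ht; simp [(h2 t (by omega)).1]
      · intro U' W' _ k2 k3
        refine win_edge _ ((mem_edges φ _).mpr (Or.inr (Or.inl ⟨i, hin, rfl⟩))) ?_
        have q1 : Vx.lit (!σ i) i ∈ W' := k2 _ (Finset.mem_insert_self _ _)
        have q2 : Vx.lit (σ i) i ∈ W' := by simpa using k3 φ.length (by omega)
        intro v hv
        rcases (mem_VE _ _ v).mp hv with ⟨t, ht, rfl⟩ | ⟨t, ht, rfl⟩ | rfl | rfl
        · simpa [ht] using k3 t (by omega)
        · exact k2 _ (Finset.mem_insert_of_mem (hW t ht))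
        · cases h : σ i <;> simp only [h, Bool.not_true, Bool.not_false] at q1 q2 <;> assumption
        · cases h : σ i <;> simp only [h, Bool.not_true, Bool.not_false] at q1 q2 <;> assumption
    · refine ih (i + 1) _ _ (by omega) ?_ ?_ ?_ ?_ ?_ ?_
      · intro t ht; simp [(h1 t ht).1, (h1 t ht).2]
      · intro t ht; simp [(h2 t ht).1, (h2 t ht).2.1, (h2 t ht).2.2]
      · intro h; simp [hd h]
      · intro t ht
        simp only [Finset.mem_sdiff, hl t ht, Finset.mem_insert, Vx.lit.injEq,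
          Finset.mem_singleton, reduceCtorEq, or_false, true_and]
        rintro ⟨k1, k2⟩
        subst k2
        simp at k1
      · intro t k1 k2
        have k3 := h3 t (by omega) k2
        have k4 : t ≠ i := by omega
        simp [k3.1, k3.2, k4]
      · intro t ht
        rcases Nat.lt_succ_iff_lt_or_eq.mp ht with h' | h'
        · exact Finset.mem_insert_of_mem (hW t h')
        · rw [h']; exact Finset.mem_insert_self _ _

end Yes

theorem mem_all {φ : List (List (Bool × ℕ))} {e : List Vx} (he : e ∈ edges φ) {v : Vx}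
    (hv : v ∈ e) : v ∈ (edges φ).flatten.toFinset :=
  List.mem_toFinset.mpr (List.mem_flatten.mpr ⟨e, he, hv⟩)

theorem yes (φ : List (List (Bool × ℕ))) (h : BSat φ) :
    WaiterWins (edges φ) (edges φ).flatten.toFinset ∅ := by
  obtain ⟨σ, hσ⟩ := h
  have hF : base φ.length φ.flatten.length φ.length ∈ edges φ :=
    (mem_edges φ _).mpr (Or.inr (Or.inr (Or.inr (Or.inr rfl))))
  have hX : ∀ k < φ.length + 1, XE k ∈ edges φ := fun k hk =>
    (mem_edges φ _).mpr (Or.inl ⟨k, hk, rfl⟩)
  have hV : ∀ k < φ.flatten.length, VE φ.length k ∈ edges φ := fun k hk =>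
    (mem_edges φ _).mpr (Or.inr (Or.inl ⟨k, hk, rfl⟩))
  have hK : ∀ k < φ.length, KE φ.length φ.flatten.length k ++ [Vx.d] ∈ edges φ := fun k hk =>
    (mem_edges φ _).mpr (Or.inr (Or.inr (Or.inl ⟨k, hk, rfl⟩)))
  have hl : ∀ b, ∀ t < φ.flatten.length, Vx.lit b t ∈ (edges φ).flatten.toFinset := by
    intro b t ht
    refine mem_all (hV t ht) ?_
    rw [mem_VE]
    cases b <;> simp
  refine lemV φ σ hσ φ.flatten.length 0 _ _ (by omega) ?_ ?_ ?_ ?_ ?_ ?_
  · intro t ht
    exact ⟨mem_all (hX t ht) (by simp [mem_XE]), mem_all hF (by simp [mem_base]; omega)⟩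
  · intro t ht
    exact ⟨mem_all (hX φ.length (by omega)) (by simp [mem_XE, ht]),
      mem_all (hK t ht) (by simp [mem_KE]), mem_all hF (by simp [mem_base, ht])⟩
  · intro h
    exact mem_all (hK 0 h) (by simp)
  · intro t ht; exact hl _ t ht
  · intro t _ ht
    exact ⟨hl _ t ht, mem_all hF ((mem_base _ _ _ _).mpr (Or.inr (Or.inl ⟨t, ht, rfl⟩)))⟩
  · intro t ht; omega

end Pool.Agent.H911Z.WC
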