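import Mathlib
import Pool.Agent.H911Z.WC.Red

namespace Pool.Agent.H911Z.WC

open Pool.Agent.NPC Pool.Agent.NPC.R671

/-- The dominating chain. -/
def fl (m n t : ℕ) : List Vx :=
  if t < m + 1 then XE t else if t < m + 1 + n then VE m (t - (m + 1))
  else if t < m + 1 + n + m then KE m n (t - (m + 1 + n)) else base m n m

def ff (m n t : ℕ) : Finset Vx := (fl m n t).toFinset

theorem fl_X {m n t : ℕ} (h : t < m + 1) : fl m n t = XE t := by simp [fl, h]

theorem fl_V {m n i : ℕ} (h : i < n) : fl m n (m + 1 + i) = VE m i := by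
  unfold fl
  rw [if_neg (by omega), if_pos (by omega), Nat.add_sub_cancel_left]

theorem fl_K {m n j : ℕ} (h : j < m) : fl m n (m + 1 + n + j) = KE m n j := by
  unfold fl
  rw [if_neg (by omega), if_neg (by omega), if_pos (by omega), Nat.add_sub_cancel_left]

theorem fl_F (m n : ℕ) : fl m n (m + 1 + n + m) = base m n m := by
  unfold fl
  rw [if_neg (by omega), if_neg (by omega), if_neg (by omega)]

theorem nodup_map_range (f : ℕ → Vx) (hf : Function.Injective f) (k : ℕ) :
    ((List.range k).map f).Nodup := List.Nodup.map hf List.nodup_range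

theorem nodup_base (m n j : ℕ) : (base m n j).Nodup := by
  unfold base
  rw [List.nodup_append, List.nodup_append]
  refine ⟨nodup_map_range _ (fun _ _ h => by simpa using h) _,
    ⟨nodup_map_range _ (fun _ _ h => by simpa using h) _,
      nodup_map_range _ (fun _ _ h => by simpa using h) _, ?_⟩, ?_⟩
  · simp
  · intro u hu v hv
    simp only [List.mem_map, List.mem_append] at hu hv
    obtain ⟨s, _, rfl⟩ := hu
    rcases hv with ⟨t, _, rfl⟩ | ⟨t, _, rfl⟩ <;> simp

theorem nodup_fl (m n t : ℕ) : (fl m n t).Nodup := by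
  unfold fl
  split_ifs
  · unfold XE
    rw [List.nodup_append]
    refine ⟨nodup_map_range _ (fun _ _ h => by simpa using h) _, by simp, by simp⟩
  · unfold VE
    rw [List.nodup_append, List.nodup_append]
    refine ⟨nodup_map_range _ (fun _ _ h => by simpa using h) _,
      ⟨nodup_map_range _ (fun _ _ h => by simpa using h) _, by simp, by simp⟩, ?_⟩
    intro u hu v hv
    simp only [List.mem_map, List.mem_append, List.mem_cons, List.not_mem_nil, or_false] at hu hv
    obtain ⟨s, _, rfl⟩ := hu
    rcases hv with ⟨t, _, rfl⟩ | rfl | rfl <;> simp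
  · unfold KE
    rw [List.nodup_append]
    refine ⟨nodup_base _ _ _, by simp, ?_⟩
    intro u hu v hv
    rw [List.mem_singleton.mp hv]
    rcases (mem_base _ _ _ u).mp hu with ⟨t, _, rfl⟩ | ⟨t, _, rfl⟩ | ⟨t, _, rfl⟩ <;> simp
  · exact nodup_base _ _ _

theorem card_ff (m n t : ℕ) :
    (ff m n t).card = if t < m + 1 + n + m then t + 1 else m + 1 + n + m := by
  unfold ff
  rw [List.toFinset_card_of_nodup (nodup_fl m n t)]
  unfold fl
  split_ifs <;> simp [XE, VE, KE, base] <;> omega

theorem mem_ff (m n t : ℕ) (v : Vx) : v ∈ ff m n t ↔ v ∈ fl m n t := List.mem_toFinset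

theorem dom (φ : List (List (Bool × ℕ))) (e : List Vx) (he : e ∈ edges φ) :
    ∃ t ∈ Finset.range (φ.length + 1 + φ.flatten.length + φ.length + 1),
      ∀ v ∈ ff φ.length φ.flatten.length t, v ∈ e := by
  rcases (mem_edges φ e).mp he with ⟨k, hk, rfl⟩ | ⟨i, hi, rfl⟩ | ⟨j, hj, rfl⟩ |
    ⟨j, hj, l, _, _, rfl⟩ | rfl
  · refine ⟨k, Finset.mem_range.mpr (by omega), fun v hv => ?_⟩
    rwa [mem_ff, fl_X hk] at hv
  · refine ⟨φ.length + 1 + i, Finset.mem_range.mpr (by omega), fun v hv => ?_⟩
    rwa [mem_ff, fl_V hi] at hv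
  · refine ⟨φ.length + 1 + φ.flatten.length + j, Finset.mem_range.mpr (by omega), fun v hv => ?_⟩
    rw [mem_ff, fl_K hj] at hv
    exact List.mem_append_left _ hv
  · refine ⟨φ.length + 1 + φ.flatten.length + j, Finset.mem_range.mpr (by omega), fun v hv => ?_⟩
    rw [mem_ff, fl_K hj] at hv
    exact List.mem_append_left _ hv
  · refine ⟨φ.length + 1 + φ.flatten.length + φ.length, Finset.mem_range.mpr (by omega),
      fun v hv => ?_⟩
    rwa [mem_ff, fl_F] at hv

theorem sub_all (φ : List (List (Bool × ℕ))) (t : ℕ) :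
    ff φ.length φ.flatten.length t ⊆ (edges φ).flatten.toFinset := by
  intro v hv
  rw [mem_ff] at hv
  unfold fl at hv
  split_ifs at hv with h1 h2 h3
  · exact mem_all ((mem_edges φ _).mpr (Or.inl ⟨t, h1, rfl⟩)) hv
  · exact mem_all ((mem_edges φ _).mpr (Or.inr (Or.inl ⟨_, by omega, rfl⟩))) hv
  · exact mem_all ((mem_edges φ _).mpr (Or.inr (Or.inr (Or.inl
      ⟨t - (φ.length + 1 + φ.flatten.length), by omega, rfl⟩)))) (List.mem_append_left _ hv)
  · exact mem_all ((mem_edges φ _).mpr (Or.inr (Or.inr (Or.inr (Or.inr rfl))))) hv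

structure Inv (φ : List (List (Bool × ℕ))) (U W : Finset Vx) : Prop where
  disj : Disjoint U W
  chain : Chain (φ.length + 1 + φ.flatten.length + φ.length)
    (fun t => om (ff φ.length φ.flatten.length t) U W)
  nod : Vx.d ∉ W
  asg : ∃ σ : ℕ → Bool,
    (∀ i < φ.flatten.length, om (ff φ.length φ.flatten.length (φ.length + 1 + i)) U W = 0 →
      Vx.lit (!σ i) i ∉ U ∪ W) ∧
    (∀ j, ∀ h : j < φ.length,
      om (ff φ.length φ.flatten.length (φ.length + 1 + φ.flatten.length + j)) U W = 0 →
      (∀ i < φ.flatten.length, om (ff φ.length φ.flatten.length (φ.length + 1 + i)) U W = 0) ∧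
      ∃ l ∈ φ[j], l.2 < φ.flatten.length ∧ σ l.2 = l.1)

theorem inv_init (φ : List (List (Bool × ℕ))) : Inv φ (edges φ).flatten.toFinset ∅ := by
  have key : ∀ t, om (ff φ.length φ.flatten.length t) (edges φ).flatten.toFinset ∅ =
      if t < φ.length + 1 + φ.flatten.length + φ.length then (1 / 2 : ℚ) ^ (t + 1)
      else (1 / 2) ^ (φ.length + 1 + φ.flatten.length + φ.length) := by
    intro t
    unfold om
    rw [if_pos ((sub_all φ t).trans Finset.subset_union_left),
      Finset.inter_eq_left.mpr (sub_all φ t), card_ff]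
    split_ifs <;> rfl
  have key2 : ∀ t, om (ff φ.length φ.flatten.length t) (edges φ).flatten.toFinset ∅ ≠ 0 :=
    fun t => om_ne_zero.mpr ((sub_all φ t).trans Finset.subset_union_left)
  refine ⟨by simp, ?_, by simp, ⟨fun _ => true, ?_, ?_⟩⟩
  · exact (chain_init _).congr (fun t => om_nonneg _ _ _) (fun t _ => key t)
  · intro i _ h; exact absurd h (key2 _)
  · intro j _ h; exact absurd h (key2 _)

theorem inv_zero {φ : List (List (Bool × ℕ))} {U W : Finset Vx} (hI : Inv φ U W) {x y : Vx}
    (hx : x ∈ U) (hy : y ∈ U) (hxy : x ≠ y) (hd : x ≠ Vx.d)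
    (h : ∀ t ≤ φ.length + 1 + φ.flatten.length + φ.length,
      om (ff φ.length φ.flatten.length t) U W ≠ 0 →
      x ∉ ff φ.length φ.flatten.length t ∧ y ∉ ff φ.length φ.flatten.length t) :
    Inv φ (U \ {x, y}) (insert x W) := by
  have key : ∀ t ≤ φ.length + 1 + φ.flatten.length + φ.length,
      om (ff φ.length φ.flatten.length t) (U \ {x, y}) (insert x W) =
      om (ff φ.length φ.flatten.length t) U W := by
    intro t ht
    rw [om_move _ hI.disj hx hy hxy]
    by_cases h0 : om (ff φ.length φ.flatten.length t) U W = 0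
    · rw [h0]; simp
    · rw [if_neg (h t ht h0).2, if_neg (h t ht h0).1]
  obtain ⟨σ, h1, h2⟩ := hI.asg
  refine ⟨disj_move hI.disj x y, hI.chain.congr (fun t => om_nonneg _ _ _) key, ?_, σ, ?_, ?_⟩
  · simp only [Finset.mem_insert, not_or]
    exact ⟨hd.symm, hI.nod⟩
  · intro i hi h0 hm
    rw [key _ (by omega)] at h0
    exact h1 i hi h0 ((mem_move hI.disj hx hy hxy _).mp hm).1
  · intro j hj h0
    rw [key _ (by omega)] at h0
    refine ⟨fun i hi => ?_, (h2 j hj h0).2⟩
    rw [key _ (by omega)]
    exact (h2 j hj h0).1 i hi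

theorem clause_sat {φ : List (List (Bool × ℕ))} {U W : Finset Vx} (hI : Inv φ U W)
    (hw : WaiterWins (edges φ) U W) (σ : ℕ → Bool)
    (h1 : ∀ i < φ.flatten.length, Vx.lit (!σ i) i ∉ U ∪ W) (j : ℕ) (hj : j < φ.length)
    (h0 : om (ff φ.length φ.flatten.length (φ.length + 1 + φ.flatten.length + j)) U W ≠ 0) :
    ∃ l ∈ φ[j], l.2 < φ.flatten.length ∧ σ l.2 = l.1 := by
  by_contra hcon
  set k := φ.length + 1 + φ.flatten.length + j with hk
  have hp := potential (Finset.range (φ.length + 1 + φ.flatten.length + φ.length + 1))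
    (fun t => if t = k then insert Vx.d (ff φ.length φ.flatten.length t)
      else ff φ.length φ.flatten.length t) hw hI.disj (by
      intro e he hal
      rcases (mem_edges φ e).mp he with ⟨t, ht, rfl⟩ | ⟨i, hi, rfl⟩ | ⟨j', hj', rfl⟩ |
        ⟨j', hj', l, hl1, hl2, rfl⟩ | rfl
      · refine ⟨t, Finset.mem_range.mpr (by omega), fun v hv => ?_⟩
        rwa [if_neg (by omega), mem_ff, fl_X ht] at hv
      · refine ⟨φ.length + 1 + i, Finset.mem_range.mpr (by omega), fun v hv => ?_⟩
        rwa [if_neg (by omega), mem_ff, fl_V hi] at hv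
      · refine ⟨φ.length + 1 + φ.flatten.length + j', Finset.mem_range.mpr (by omega),
          fun v hv => ?_⟩
        split_ifs at hv
        · rcases Finset.mem_insert.mp hv with h | h
          · rw [h]; simp
          · rw [mem_ff, fl_K hj'] at h
            exact List.mem_append_left _ h
        · rw [mem_ff, fl_K hj'] at hv
          exact List.mem_append_left _ hv
      · by_cases hjj : j' = j
        · subst hjj
          exfalso
          have h2 := hal (Vx.lit l.1 l.2) (by simp)
          have h3 : σ l.2 ≠ l.1 := fun h => hcon ⟨l, hl1, hl2, h⟩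
          have h4 : (!σ l.2) = l.1 := by
            cases h5 : σ l.2 <;> cases h6 : l.1 <;> simp_all
          exact h1 l.2 hl2 (h4 ▸ h2)
        · refine ⟨φ.length + 1 + φ.flatten.length + j', Finset.mem_range.mpr (by omega),
            fun v hv => ?_⟩
          rw [if_neg (by omega), mem_ff, fl_K hj'] at hv
          exact List.mem_append_left _ hv
      · refine ⟨φ.length + 1 + φ.flatten.length + φ.length, Finset.mem_range.mpr (by omega),
          fun v hv => ?_⟩
        rwa [if_neg (by omega), mem_ff, fl_F] at hv)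
  have hlt : om (insert Vx.d (ff φ.length φ.flatten.length k)) U W <
      om (ff φ.length φ.flatten.length k) U W := by
    have hsub := om_ne_zero.mp h0
    have hdn : Vx.d ∉ ff φ.length φ.flatten.length k := by
      rw [mem_ff, hk, fl_K hj, mem_KE, mem_base]
      simp
    unfold om
    rw [if_pos hsub]
    split_ifs with h
    · have hdU : Vx.d ∈ U := by
        rcases Finset.mem_union.mp (h (Finset.mem_insert_self _ _)) with h' | h'
        · exact h'
        · exact absurd h' hI.nod
      rw [Finset.insert_inter_of_mem hdU, Finset.card_insert_of_notMem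
        (fun h' => hdn (Finset.mem_inter.mp h').1), pow_succ]
      have : (0 : ℚ) < (1 / 2) ^ (ff φ.length φ.flatten.length k ∩ U).card := by positivity
      linarith
    · positivity
  have hs : ∑ t ∈ Finset.range (φ.length + 1 + φ.flatten.length + φ.length + 1),
      om (if t = k then insert Vx.d (ff φ.length φ.flatten.length t)
        else ff φ.length φ.flatten.length t) U W <
      ∑ t ∈ Finset.range (φ.length + 1 + φ.flatten.length + φ.length + 1),
        om (ff φ.length φ.flatten.length t) U W := by
    apply Finset.sum_lt_sum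
    · intro t _
      split_ifs with h
      · rw [h]; exact hlt.le
      · exact le_rfl
    · exact ⟨k, Finset.mem_range.mpr (by omega), by rw [if_pos rfl]; exact hlt⟩
  have := hI.chain.total
  linarith

theorem inv_kill {φ : List (List (Bool × ℕ))} {U W : Finset Vx} (hI : Inv φ U W)
    (hw : WaiterWins (edges φ) U W) {x y : Vx}
    (hx : x ∈ U) (hy : y ∈ U) (hxy : x ≠ y) (k : ℕ)
    (hk : k < φ.length + 1 + φ.flatten.length + φ.length)
    (hk0 : om (ff φ.length φ.flatten.length k) U W ≠ 0)
    (h : ∀ t ≤ φ.length + 1 + φ.flatten.length + φ.length,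
      om (ff φ.length φ.flatten.length t) U W ≠ 0 →
      (y ∈ ff φ.length φ.flatten.length t ↔ t = k) ∧
        (x ∈ ff φ.length φ.flatten.length t ↔ k < t)) :
    Inv φ (U \ {x, y}) (insert x W) := by
  have key : ∀ t ≤ φ.length + 1 + φ.flatten.length + φ.length,
      om (ff φ.length φ.flatten.length t) (U \ {x, y}) (insert x W) =
      if t = k then 0 else if k < t then 2 * om (ff φ.length φ.flatten.length t) U W
        else om (ff φ.length φ.flatten.length t) U W := by
    intro t ht
    rw [om_move _ hI.disj hx hy hxy]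
    by_cases h0 : om (ff φ.length φ.flatten.length t) U W = 0
    · rw [h0]; simp
    · simp only [(h t ht h0).1, (h t ht h0).2]
  have key0 : ∀ t ≤ φ.length + 1 + φ.flatten.length + φ.length,
      (om (ff φ.length φ.flatten.length t) (U \ {x, y}) (insert x W) = 0 ↔
      t = k ∨ om (ff φ.length φ.flatten.length t) U W = 0) := by
    intro t ht
    rw [key t ht]
    split_ifs with h1 h2 <;> simp [h1]
  have hlast := h _ le_rfl hI.chain.last
  have hxF : x ∈ base φ.length φ.flatten.length φ.length := by
    have := hlast.2.mpr hk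
    rwa [mem_ff, fl_F] at this
  have hyF : y ∉ base φ.length φ.flatten.length φ.length := by
    intro h'
    have := hlast.1.mp (by rwa [mem_ff, fl_F])
    omega
  have hyk : y ∈ ff φ.length φ.flatten.length k := (h k hk.le hk0).1.mpr rfl
  have hsub : ∀ v, v ∈ (U \ {x, y}) ∪ insert x W → v ∈ U ∪ W :=
    fun v hv => ((mem_move hI.disj hx hy hxy _).mp hv).1
  obtain ⟨σ, h1, h2⟩ := hI.asg
  refine ⟨disj_move hI.disj x y,
    (hI.chain.kill k hk hk0).congr (fun t => om_nonneg _ _ _) key, ?_, ?_⟩
  · simp only [Finset.mem_insert, not_or]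
    refine ⟨?_, hI.nod⟩
    rintro rfl
    rw [mem_base] at hxF
    simp at hxF
  by_cases c1 : k < φ.length + 1
  · refine ⟨σ, ?_, ?_⟩
    · intro i hi h0 hm
      rcases (key0 _ (by omega)).mp h0 with h3 | h3
      · omega
      · exact h1 i hi h3 (hsub _ hm)
    · intro j hj h0
      rcases (key0 _ (by omega)).mp h0 with h3 | h3
      · omega
      · exact ⟨fun i hi => (key0 _ (by omega)).mpr (Or.inr ((h2 j hj h3).1 i hi)), (h2 j hj h3).2⟩
  by_cases c2 : k < φ.length + 1 + φ.flatten.length
  · obtain ⟨i, rfl⟩ : ∃ i, k = φ.length + 1 + i := ⟨k - (φ.length + 1), by omega⟩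
    have hi : i < φ.flatten.length := by omega
    have hKal : ∀ j < φ.length,
        om (ff φ.length φ.flatten.length (φ.length + 1 + φ.flatten.length + j)) U W ≠ 0 :=
      fun j hj h0 => hk0 ((h2 j hj h0).1 i hi)
    have hyl : ∃ b, y = Vx.lit b i := by
      rw [mem_ff, fl_V hi, mem_VE] at hyk
      rcases hyk with ⟨t, ht, rfl⟩ | ⟨t, ht, rfl⟩ | rfl | rfl
      · exfalso
        have := (h _ (by omega) (hKal t ht)).1.mp (by rw [mem_ff, fl_K ht, mem_KE]; simp)
        omega
      · exfalso
        exact hyF ((mem_base _ _ _ _).mpr (Or.inr (Or.inl ⟨t, by omega, rfl⟩)))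
      · exact ⟨_, rfl⟩
      · exact ⟨_, rfl⟩
    obtain ⟨b, rfl⟩ := hyl
    refine ⟨Function.update σ i (!b), ?_, ?_⟩
    · intro i' hi' h0 hm
      by_cases hii : i' = i
      · subst hii
        simp only [Function.update_self, Bool.not_not] at hm
        exact ((mem_move hI.disj hx hy hxy _).mp hm).2 rfl
      · rw [Function.update_of_ne hii] at hm
        rcases (key0 _ (by omega)).mp h0 with h3 | h3
        · omega
        · exact h1 i' hi' h3 (hsub _ hm)
    · intro j hj h0
      rcases (key0 _ (by omega)).mp h0 with h3 | h3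
      · omega
      · exact absurd h3 (hKal j hj)
  · obtain ⟨j, rfl⟩ : ∃ j, k = φ.length + 1 + φ.flatten.length + j :=
      ⟨k - (φ.length + 1 + φ.flatten.length), by omega⟩
    have hj : j < φ.length := by omega
    have hyc : y = Vx.c j := by
      rw [mem_ff, fl_K hj, mem_KE] at hyk
      rcases hyk with h3 | h3
      · exfalso
        apply hyF
        rw [mem_base] at h3 ⊢
        rcases h3 with h4 | h4 | ⟨t, ht, h4⟩
        · exact Or.inl h4
        · exact Or.inr (Or.inl h4)
        · exact Or.inr (Or.inr ⟨t, by omega, h4⟩)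
      · exact h3
    have hVd : ∀ i < φ.flatten.length,
        om (ff φ.length φ.flatten.length (φ.length + 1 + i)) U W = 0 := by
      intro i hi
      by_contra h0
      have := (h _ (by omega) h0).1.mp (by
        rw [mem_ff, fl_V hi, mem_VE]
        exact Or.inl ⟨j, hj, hyc⟩)
      omega
    refine ⟨σ, ?_, ?_⟩
    · intro i hi _ hm
      exact h1 i hi (hVd i hi) (hsub _ hm)
    · intro j' hj' h0
      refine ⟨fun i hi => (key0 _ (by omega)).mpr (Or.inr (hVd i hi)), ?_⟩
      rcases (key0 _ (by omega)).mp h0 with h3 | h3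
      · have : j' = j := by omega
        subst this
        exact clause_sat hI hw σ (fun i hi => h1 i hi (hVd i hi)) j' hj' hk0
      · exact (h2 j' hj' h3).2

theorem no_aux (φ : List (List (Bool × ℕ))) {U W : Finset Vx}
    (hw : WaiterWins (edges φ) U W) : Inv φ U W → BSat φ := by
  induction hw with
  | done U W _ h2 =>
    intro hI
    obtain ⟨e, he, h3⟩ := h2
    obtain ⟨t, ht, h4⟩ := dom φ e he
    have h5 : om (ff φ.length φ.flatten.length t) U W = 1 :=
      om_of_subset hI.disj (fun v hv => h3 v (h4 v hv))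
    have two : ∀ s s', s ≠ s' → s ≤ φ.length + 1 + φ.flatten.length + φ.length →
        s' ≤ φ.length + 1 + φ.flatten.length + φ.length →
        om (ff φ.length φ.flatten.length s) U W + om (ff φ.length φ.flatten.length s') U W ≤ 1 := by
      intro s s' hne hs hs'
      refine le_trans ?_ hI.chain.total
      rw [← Finset.sum_pair (f := fun t => om (ff φ.length φ.flatten.length t) U W) hne]
      apply Finset.sum_le_sum_of_subset_of_nonneg
      · intro v hv
        simp only [Finset.mem_insert, Finset.mem_singleton] at hv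
        rw [Finset.mem_range]
        omega
      · intro _ _ _; exact om_nonneg _ _ _
    have ht' := Finset.mem_range.mp ht
    have htN : t = φ.length + 1 + φ.flatten.length + φ.length := by
      by_contra hne
      have h6 := two t _ hne (by omega) le_rfl
      have h7 := hI.chain.last
      have h8 := om_nonneg (ff φ.length φ.flatten.length
        (φ.length + 1 + φ.flatten.length + φ.length)) U W
      exact h7 (by linarith)
    obtain ⟨σ, _, h7⟩ := hI.asg
    refine ⟨σ, fun cl hcl => ?_⟩
    obtain ⟨j, hj, rfl⟩ := List.getElem_of_mem hcl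
    refine (h7 j hj ?_).2
    have h8 := two t (φ.length + 1 + φ.flatten.length + j) (by omega) (by omega) (by omega)
    have h9 := om_nonneg (ff φ.length φ.flatten.length
      (φ.length + 1 + φ.flatten.length + j)) U W
    linarith
  | step U W x y hx hy hxy w1 w2 ih1 ih2 =>
    intro hI
    have hw : WaiterWins (edges φ) U W := WaiterWins.step U W x y hx hy hxy w1 w2
    have p1 := potential _ (ff φ.length φ.flatten.length) w1 (disj_move hI.disj x y)
      (fun e he _ => dom φ e he)
    rw [Finset.pair_comm x y] at w2 ih2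
    have p2 := potential _ (ff φ.length φ.flatten.length) w2 (disj_move hI.disj y x)
      (fun e he _ => dom φ e he)
    simp only [om_move _ hI.disj hx hy hxy] at p1
    simp only [om_move _ hI.disj hy hx hxy.symm] at p2
    rcases hI.chain.cases (fun t => x ∈ ff φ.length φ.flatten.length t)
      (fun t => y ∈ ff φ.length φ.flatten.length t) p1 p2 with h | ⟨k, hk, hk0, h⟩ |
      ⟨k, hk, hk0, h⟩
    · by_cases hd : x = Vx.d
      · exact ih2 (inv_zero hI hy hx hxy.symm (fun h' => hxy (hd.trans h'.symm))
          (fun t ht h0 => (h t ht h0).symm))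
      · exact ih1 (inv_zero hI hx hy hxy hd h)
    · exact ih2 (inv_kill hI hw hy hx hxy.symm k hk hk0 h)
    · exact ih1 (inv_kill hI hw hx hy hxy k hk hk0 h)

theorem iff_win (φ : List (List (Bool × ℕ))) :
    BSat φ ↔ WaiterWins (edges φ) (edges φ).flatten.toFinset ∅ :=
  ⟨yes φ, fun h => no_aux φ h (inv_init φ)⟩

end Pool.Agent.H911Z.WC
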