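import Mathlib
import Pool.Agent.H911Z.WC.No

namespace Pool.Agent.H911Z.WC

open Pool.Agent.NPC Pool.Agent.NPC.R671

def code : Vx → ℕ
  | Vx.x k => 9 * k
  | Vx.y k => 9 * k + 1
  | Vx.c k => 9 * k + 2
  | Vx.g k => 9 * k + 3
  | Vx.a k => 9 * k + 4
  | Vx.z k => 9 * k + 5
  | Vx.lit b k => 9 * k + (bif b then 7 else 6)
  | Vx.d => 8

theorem code_inj : Function.Injective code := by
  intro u v h
  rcases u with k | k | k | k | k | k | ⟨_ | _, k⟩ | _ <;>
    rcases v with l | l | l | l | l | l | ⟨_ | _, l⟩ | _ <;>
    simp only [code, cond_true, cond_false] at h <;>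
    first
      | rfl
      | (exfalso; omega)
      | (have : k = l := by omega
         rw [this])

/-- `rg f k l` is the list of the values of `f` at the positions of `l` below `k`. -/
def rg (R : List ℕ) (k r : ℕ) : List ℕ := (R.filter (fun t => decide (t < k))).map (fun t => 9 * t + r)

theorem rg_range (M k r : ℕ) (h : k ≤ M) :
    rg (List.range M) k r = (List.range k).map (fun t => 9 * t + r) := by
  unfold rg
  congr 1
  obtain ⟨d, rfl⟩ := Nat.exists_eq_add_of_le h
  rw [List.range_add, List.filter_append, List.filter_eq_self.mpr (by simp),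
    List.filter_eq_nil_iff.mpr (by simp)]
  simp

theorem rg_poly {α : Type} [TEnc α] {R : α → List ℕ} {k r : α → ℕ} (h1 : Poly R) (h2 : Poly k)
    (h3 : Poly r) : Poly (fun a => rg (R a) (k a) (r a)) := by
  unfold rg
  fun_prop

attribute [fun_prop] rg_poly

def baseN (R : List ℕ) (m n j : ℕ) : List ℕ := rg R (m + 1) 3 ++ (rg R n 4 ++ rg R j 5)

theorem baseN_poly {α : Type} [TEnc α] {R : α → List ℕ} {m n j : α → ℕ} (h1 : Poly R)
    (h2 : Poly m) (h3 : Poly n) (h4 : Poly j) :
    Poly (fun a => baseN (R a) (m a) (n a) (j a)) := by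
  unfold baseN
  fun_prop

attribute [fun_prop] baseN_poly

def redAux (φ : List (List (Bool × ℕ))) (R : List ℕ) (m n : ℕ) : List (List ℕ) :=
  (R.filter (fun t => decide (t < m + 1))).map (fun k => rg R k 1 ++ [9 * k]) ++
    ((R.filter (fun t => decide (t < n))).map
      (fun i => rg R m 2 ++ (rg R i 4 ++ [9 * i + 7, 9 * i + 6])) ++
    (φ.zipIdx.flatMap (fun p => ((baseN R m n p.2 ++ [9 * p.2 + 2]) ++ [8]) ::
      (p.1.filter (fun l => decide (l.2 < n))).map
        (fun l => (baseN R m n p.2 ++ [9 * p.2 + 2]) ++ [9 * l.2 + (bif l.1 then 7 else 6)])) ++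
      [baseN R m n m]))

def red (φ : List (List (Bool × ℕ))) : List (List ℕ) :=
  redAux φ (List.range (φ.length + 1 + φ.flatten.length)) φ.length φ.flatten.length

attribute [local irreducible] rg baseN

theorem redAux_poly : Poly (fun p : List (List (Bool × ℕ)) × List ℕ × ℕ × ℕ =>
    redAux p.1 p.2.1 p.2.2.1 p.2.2.2) := by
  unfold redAux
  refine Poly.append ?_ (Poly.append ?_ (Poly.append ?_ ?_))
  · fun_prop
  · fun_prop
  · fun_prop
  · fun_prop

theorem red_poly : Poly red := by
  have h1 : UPoly (fun φ : List (List (Bool × ℕ)) => φ.flatten.length) :=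
    UPoly.length (by fun_prop)
  have h2 : UPoly (fun φ : List (List (Bool × ℕ)) => φ.length) :=
    UPoly.length (by fun_prop)
  have h3 := ((h2.add (UPoly.const 1)).add h1).range
  exact redAux_poly.comp (Poly.pair Poly.id (Poly.pair h3 (Poly.pair h2.toPoly h1.toPoly)))

theorem filter_range (M k : ℕ) (h : k ≤ M) :
    (List.range M).filter (fun t => decide (t < k)) = List.range k := by
  obtain ⟨d, rfl⟩ := Nat.exists_eq_add_of_le h
  rw [List.range_add, List.filter_append, List.filter_eq_self.mpr (by simp),
    List.filter_eq_nil_iff.mpr (by simp)]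
  simp

theorem baseN_eq (m n j : ℕ) (hj : j ≤ m) :
    baseN (List.range (m + 1 + n)) m n j = (base m n j).map code := by
  unfold baseN base
  rw [rg_range _ _ _ (by omega), rg_range _ _ _ (by omega), rg_range _ _ _ (by omega)]
  simp only [List.map_append, List.map_map]
  rfl

theorem red_eq (φ : List (List (Bool × ℕ))) : red φ = (edges φ).map (List.map code) := by
  unfold red redAux edges
  rw [filter_range _ _ (by omega), filter_range _ _ (by omega)]
  simp only [List.map_append, List.map_map, List.map_flatMap, List.map_cons, List.map_nil]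
  congr 1
  · apply List.map_congr_left
    intro k hk
    have := List.mem_range.mp hk
    rw [rg_range _ _ _ (by omega)]
    simp only [Function.comp, XE, List.map_append, List.map_map]
    rfl
  congr 1
  · apply List.map_congr_left
    intro k hk
    have := List.mem_range.mp hk
    rw [rg_range _ _ _ (by omega), rg_range _ _ _ (by omega)]
    simp only [Function.comp, VE, List.map_append, List.map_map]
    rfl
  congr 1
  · apply List.flatMap_congr
    intro p hp
    rw [List.mem_zipIdx_iff_getElem?] at hp
    obtain ⟨hj, _⟩ := List.getElem?_eq_some_iff.mp hp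
    rw [baseN_eq _ _ _ hj.le]
    congr 1
    · simp only [KE, List.map_append]
      rfl
    · apply List.map_congr_left
      intro l _
      simp only [Function.comp, KE, List.map_append]
      rfl
  · rw [baseN_eq _ _ _ le_rfl]

theorem red_iff (φ : List (List (Bool × ℕ))) : BSat φ ↔ WaiterClient (red φ) := by
  have e : ((edges φ).map (List.map code)).flatten.toFinset =
      (edges φ).flatten.toFinset.image code := by
    rw [← List.map_flatten]
    ext v
    simp only [List.mem_toFinset, List.mem_map, Finset.mem_image]
  rw [iff_win, WaiterClient, red_eq, e]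
  constructor
  · intro h
    simpa using win_map code_inj _ _ _ h
  · intro h
    exact win_unmap code_inj _ _ _ h _ _ rfl (by simp)

theorem hard : NPHardP WaiterClient :=
  (hardI_BSat.trans red_poly red_iff).toNPHardP

end Pool.Agent.H911Z.WC
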